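import Pool.Agent.H45.EGH.S2

/-!
# EGH: GPM, the pieces of the graded algebra
-/

set_option autoImplicit false

namespace Pool.EGH

open MvPolynomial

namespace GPM

variable {K : Type} [Field K] {N : ℕ}

/-- The forms of degree zero are the constants. -/
theorem fm_zero : fm K N 0 = 1 := by
  apply le_antisymm
  · intro f hf
    rw [Submodule.mem_one]
    have h : f.IsHomogeneous 0 := (mem_homogeneousSubmodule 0 f).1 hf
    have h2 : f.totalDegree = 0 := Nat.le_zero.1 (h.totalDegree_le)
    exact ⟨coeff 0 f, by
      rw [MvPolynomial.algebraMap_eq]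
      exact (totalDegree_eq_zero_iff_eq_C.1 h2).symm⟩
  · intro f hf
    rw [Submodule.mem_one] at hf
    obtain ⟨c, rfl⟩ := hf
    rw [MvPolynomial.algebraMap_eq]
    exact (mem_homogeneousSubmodule 0 _).2 (isHomogeneous_C _ _)

/-- A monomial of degree `i + j` is a product of monomials of degrees `i` and `j`. -/
theorem split_deg {s : Fin N →₀ ℕ} : ∀ {i j : ℕ}, s.degree = i + j →
    ∃ a b : Fin N →₀ ℕ, a + b = s ∧ a.degree = i ∧ b.degree = j := by
  intro i
  induction i with
  | zero =>
    intro j h
    exact ⟨0, s, by rw [zero_add], by rw [map_zero], by rw [h, zero_add]⟩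
  | succ i ih =>
    intro j h
    obtain ⟨a, b, hab, ha, hb⟩ := ih (j := j + 1) (by rw [h]; ring)
    have hb0 : b ≠ 0 := by
      intro h0
      rw [h0, map_zero] at hb
      omega
    obtain ⟨k, hk⟩ := Finsupp.ne_iff.1 hb0
    rw [Finsupp.zero_apply] at hk
    have hle : Finsupp.single k 1 ≤ b := by
      rw [Finsupp.single_le_iff]
      omega
    refine ⟨a + Finsupp.single k 1, b - Finsupp.single k 1, ?_, ?_, ?_⟩
    · rw [add_assoc, add_tsub_cancel_of_le hle, hab]
    · rw [map_add, ha, Finsupp.degree_single]
    · have h3 : (b - Finsupp.single k 1 + Finsupp.single k 1).degree = b.degree := by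
        rw [tsub_add_cancel_of_le hle]
      rw [map_add, Finsupp.degree_single, hb] at h3
      omega

/-- Products of forms. -/
theorem fm_mul (i j : ℕ) : fm K N i * fm K N j = fm K N (i + j) := by
  apply le_antisymm
  · exact homogeneousSubmodule_mul i j
  · intro f hf
    have hf' : f.IsHomogeneous (i + j) := (mem_homogeneousSubmodule _ f).1 hf
    rw [f.as_sum]
    refine Submodule.sum_mem _ fun s hs => ?_
    have hd : s.degree = i + j := by
      have := hf' (mem_support_iff.1 hs)
      rw [Finsupp.degree_eq_weight_one]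
      exact this
    obtain ⟨a, b, hab, ha, hb⟩ := split_deg hd
    have he : monomial s (coeff s f) = monomial a (coeff s f) * monomial b 1 := by
      rw [monomial_mul, mul_one, hab]
    rw [he]
    exact Submodule.mul_mem_mul ((mem_homogeneousSubmodule _ _).2 (isHomogeneous_monomial _ ha))
      ((mem_homogeneousSubmodule _ _).2 (isHomogeneous_monomial _ hb))

end GPM

/-- GPM. -/
theorem t_gpm (h1 : FINStmt) : GPMStmt := by
  intro K _ N Q
  refine ⟨fun i => ?_, fun i j => ?_, fun V => ?_, fun i f hf => ?_⟩
  · have := h1 K N i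
    exact Module.Finite.map (fm K N i) (Ideal.Quotient.mkₐ K Q).toLinearMap
  · unfold gp
    rw [← GPM.fm_mul, Submodule.map_mul]
  · have : gp Q 0 = 1 := by
      unfold gp
      rw [GPM.fm_zero, Submodule.map_one]
    rw [this]
    exact one_mul V
  · exact ⟨f, hf, rfl⟩

end Pool.EGH
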