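import Pool.Agent.H45.EGH.S1

/-!
# EGH: LSH, ideals generated by a regular sequence of linear forms
-/

set_option autoImplicit false

namespace Pool.EGH

open MvPolynomial

namespace LSH

variable {K : Type} [Field K] {N : ℕ}

/-- Forms of positive degree have no constant term. -/
theorem cc_zero {i : ℕ} {f : PR K N} (hf : f ∈ fm K N (i + 1)) : constantCoeff f = 0 := by
  by_contra h
  have hf' : f.IsHomogeneous (i + 1) := (mem_homogeneousSubmodule _ f).1 hf
  rw [constantCoeff_eq] at h
  have := hf' h
  rw [map_zero] at this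
  omega

/-- A mixed complete intersection is contained in the ideal of the variables. -/
theorem le_cc {k r : ℕ} {J : Ideal (PR K N)} (h : MCI k r J) :
    J ≤ RingHom.ker (constantCoeff : PR K N →+* K) := by
  induction h with
  | zero => exact bot_le
  | lin _ hl _ ih =>
    refine sup_le ih ((Ideal.span_singleton_le_iff_mem _).2 ?_)
    rw [RingHom.mem_ker]
    exact cc_zero hl
  | quad _ hl _ ih =>
    refine sup_le ih ((Ideal.span_singleton_le_iff_mem _).2 ?_)
    rw [RingHom.mem_ker]
    exact cc_zero hl

/-- A mixed complete intersection is proper. -/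
theorem one_notMem {k r : ℕ} {J : Ideal (PR K N)} (h : MCI k r J) : (1 : PR K N) ∉ J := by
  intro h1
  have := le_cc h h1
  rw [RingHom.mem_ker, map_one] at this
  exact one_ne_zero this

/-- A regular element does not belong to the ideal. -/
theorem notMem_of_rg {k r : ℕ} {J : Ideal (PR K N)} (h : MCI k r J) {l : PR K N}
    (hl : Rg J l) : l ∉ J := by
  intro h1
  exact one_notMem h (hl 1 (by rw [mul_one]; exact h1))

/-- The dimension grows by one. -/
theorem finrank_sup {M : Type} [AddCommGroup M] [Module K M] (L : Submodule K M)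
    [Module.Finite K L] {l : M} (hl : l ∉ L) :
    Module.finrank K ↥(L ⊔ K ∙ l) = Module.finrank K L + 1 := by
  have h0 : l ≠ 0 := fun h => hl (h ▸ L.zero_mem)
  have h1 := Submodule.finrank_sup_add_finrank_inf_eq L (K ∙ l)
  have h2 : L ⊓ (K ∙ l) = ⊥ := by
    rw [eq_bot_iff]
    rintro x ⟨hx1, hx2⟩
    obtain ⟨c, rfl⟩ := Submodule.mem_span_singleton.1 hx2
    rw [Submodule.mem_bot]
    by_contra hc
    have hc0 : c ≠ 0 := fun h => hc (by rw [h, zero_smul])
    exact hl ((Submodule.smul_mem_iff L hc0).1 hx1)
  rw [h2, finrank_bot, add_zero, finrank_span_singleton h0] at h1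
  exact h1

/-- The ideal generated by a space and one more element. -/
theorem span_sup (L : Submodule K (PR K N)) (l : PR K N) :
    Ideal.span ((L ⊔ K ∙ l : Submodule K (PR K N)) : Set (PR K N)) =
      Ideal.span (L : Set (PR K N)) ⊔ Ideal.span {l} := by
  apply le_antisymm
  · rw [Ideal.span_le]
    intro x hx
    obtain ⟨y, hy, z, hz, rfl⟩ := Submodule.mem_sup.1 hx
    obtain ⟨c, rfl⟩ := Submodule.mem_span_singleton.1 hz
    refine Ideal.add_mem _ (Ideal.mem_sup_left (Ideal.subset_span hy)) (Ideal.mem_sup_right ?_)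
    rw [smul_eq_C_mul]
    exact Ideal.mul_mem_left _ _ (Ideal.subset_span rfl)
  · refine sup_le (Ideal.span_mono ?_) (Ideal.span_mono ?_)
    · intro x hx
      exact Submodule.mem_sup_left hx
    · intro x hx
      exact Submodule.mem_sup_right (by
        rw [Set.mem_singleton_iff] at hx
        rw [hx]
        exact Submodule.mem_span_singleton_self l)

end LSH

/-- LSH. -/
theorem t_lsh : LSHStmt := by
  intro K _ N k J h
  generalize hr : (0 : ℕ) = r at h
  induction h with
  | zero =>
    refine ⟨⊥, bot_le, finrank_bot K _, ?_⟩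
    rw [Submodule.bot_coe, Ideal.span_singleton_eq_bot.2 rfl]
  | @lin k J l hJ hl hrl ih =>
    obtain ⟨L, hL1, hL2, hL3⟩ := ih rfl
    have hfin : Module.Finite K ↥(fm K N 1) := by
      have h1 : fm K N 1 ≤ restrictTotalDegree (Fin N) K 1 := by
        intro f hf
        rw [mem_restrictTotalDegree]
        exact ((mem_homogeneousSubmodule _ f).1 hf).totalDegree_le
      exact Submodule.finiteDimensional_of_le h1
    have hfin' : Module.Finite K ↥L := Submodule.finiteDimensional_of_le hL1
    have hlL : l ∉ L := fun h => LSH.notMem_of_rg hJ hrl (by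
      rw [hL3]
      exact Ideal.subset_span h)
    refine ⟨L ⊔ K ∙ l, ?_, ?_, ?_⟩
    · refine sup_le hL1 ?_
      rw [Submodule.span_singleton_le_iff_mem]
      exact hl
    · rw [LSH.finrank_sup L hlL, hL2]
    · rw [LSH.span_sup, ← hL3]
  | quad => omega

end Pool.EGH
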